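import Mathlib
import Pool.Agent.Helper500.RA9

/-! Polygons all but two of whose vertices lie on a line, or all but one of whose vertices lie on a
circle, are approximated by polygons with all sides and diagonals rational. -/

set_option autoImplicit false

namespace Pool.Agent.Results.MP_817a4c_co.NearlyCollinearOrCyclic

/-- A polygon `p` with all vertices except `p a` and `p b` on one line, or with all vertices
except `p a` on one circle, can be approximated arbitrarily closely by polygons all of whose sides
and diagonals are rational. -/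
theorem result :
    (∀ (n : ℕ) (p : Fin n → EuclideanSpace ℝ (Fin 2)) (a b : Fin n),
      Collinear ℝ (p '' {i | i ≠ a ∧ i ≠ b}) → ∀ ε : ℝ, 0 < ε →
        ∃ q : Fin n → EuclideanSpace ℝ (Fin 2),
          (∀ i, dist (p i) (q i) < ε) ∧ (∀ i j, ∃ r : ℚ, dist (q i) (q j) = (r : ℝ))) ∧
    (∀ (n : ℕ) (p : Fin n → EuclideanSpace ℝ (Fin 2)) (a : Fin n),
      EuclideanGeometry.Cospherical (p '' {i | i ≠ a}) → ∀ ε : ℝ, 0 < ε →
        ∃ q : Fin n → EuclideanSpace ℝ (Fin 2),
          (∀ i, dist (p i) (q i) < ε) ∧ (∀ i j, ∃ r : ℚ, dist (q i) (q j) = (r : ℝ))) :=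
  ⟨fun _ p a b h _ hε =>
      Pool.Agent.Helper500.RA.line_two p a b h (Set.finite_range p).isBounded hε,
    fun _ p a h _ hε => Pool.Agent.Helper500.RA.circle_one p a h hε⟩

end Pool.Agent.Results.MP_817a4c_co.NearlyCollinearOrCyclic
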